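import Mathlib

/-!
The group `G` is the semidirect product of the group `M` of finitely supported matrices with rows
indexed by natural numbers (a direct sum of infinitely many copies of the natural module) with the
simple group `A` generated by all finitary transvections over the field with two elements.
For a suitable infinite row-finite base matrix `X`, the derivation taking `g` to `g X - X` maps `A`
onto `M`, so `G` is the product of two complements of `M`, both isomorphic to `A`.
-/

namespace Pool.Agent.Results.MP_bc5942_al.CompSeries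

/-- A composition series: a finite chain from the trivial subgroup to `G`, each term normal in the
next one, with simple (in particular nontrivial) successive quotients. -/
def HasCompositionSeries (G : Type) [Group G] : Prop :=
  ∃ (n : ℕ) (H : Fin (n + 1) → Subgroup G), H 0 = ⊥ ∧ H (Fin.last n) = ⊤ ∧
    ∀ i : Fin n, H i.castSucc ≤ H i.succ ∧
      ∃ _ : ((H i.castSucc).subgroupOf (H i.succ)).Normal,
        IsSimpleGroup (↥(H i.succ) ⧸ (H i.castSucc).subgroupOf (H i.succ))


section Chains

variable {G : Type} [Group G]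

theorem hasCompositionSeries_of_simple [IsSimpleGroup G] : HasCompositionSeries G := by
  refine ⟨1, fun i => if i = 0 then ⊥ else ⊤, by simp, by simp, ?_⟩
  intro i
  have hi : i = 0 := Subsingleton.elim _ _
  subst hi
  refine ⟨by simp, ?_⟩
  have h0 : (if (Fin.castSucc (0 : Fin 1)) = 0 then (⊥ : Subgroup G) else ⊤) = ⊥ := by simp
  have h1 : (if (Fin.succ (0 : Fin 1)) = 0 then (⊥ : Subgroup G) else ⊤) = ⊤ := by simp
  beta_reduce
  rw [h0, h1]
  refine ⟨inferInstance, ?_⟩
  have e : (↥(⊤ : Subgroup G) ⧸ (⊥ : Subgroup G).subgroupOf ⊤) ≃* G := by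
    refine (QuotientGroup.quotientMulEquivOfEq (by simp)).trans
      ((QuotientGroup.quotientBot (G := ↥(⊤ : Subgroup G))).trans Subgroup.topEquiv)
  exact e.isSimpleGroup

end Chains

theorem finite_of_hasCompositionSeries {G : Type} [Group G] (h : HasCompositionSeries G)
    (M : Subgroup G) (hM : M.Normal) (hc : ∀ x ∈ M, ∀ y ∈ M, x * y = y * x)
    (h2 : ∀ x ∈ M, x * x = 1) : (M : Set G).Finite := by
  obtain ⟨n, H, h0, hn, hstep⟩ := h
  have hind : ∀ i : Fin (n + 1), ((M ⊓ H i : Subgroup G) : Set G).Finite := by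
    intro i
    induction i using Fin.induction with
    | zero => rw [h0]; simp
    | succ i ih =>
      obtain ⟨hle, hnorm, hsimple⟩ := hstep i
      set P := H i.castSucc with hP
      set Q := H i.succ with hQ
      let π : ↥Q →* ↥Q ⧸ P.subgroupOf Q := QuotientGroup.mk' (P.subgroupOf Q)
      have hπ : Function.Surjective π := QuotientGroup.mk'_surjective _
      have hker : ∀ x : ↥Q, π x = 1 ↔ (x : G) ∈ P := by
        intro x
        rw [QuotientGroup.mk'_apply, QuotientGroup.eq_one_iff, Subgroup.mem_subgroupOf]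
      have hI : (Subgroup.map π (M.subgroupOf Q)).Normal :=
        (inferInstance : (M.subgroupOf Q).Normal).map π hπ
      rcases hI.eq_bot_or_eq_top with hb | ht
      · refine ih.subset ?_
        rintro x ⟨hxM, hxQ⟩
        refine ⟨hxM, ?_⟩
        have : π ⟨x, hxQ⟩ ∈ Subgroup.map π (M.subgroupOf Q) :=
          Subgroup.mem_map_of_mem _ (by rw [Subgroup.mem_subgroupOf]; exact hxM)
        rw [hb, Subgroup.mem_bot] at this
        exact (hker _).1 this
      · have hlift : ∀ q : ↥Q ⧸ P.subgroupOf Q, ∃ m : ↥Q, (m : G) ∈ M ∧ π m = q := by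
          intro q
          have : q ∈ Subgroup.map π (M.subgroupOf Q) := by rw [ht]; trivial
          obtain ⟨m, hm, rfl⟩ := this
          exact ⟨m, by simpa [Subgroup.mem_subgroupOf] using hm, rfl⟩
        have hcomm : ∀ a b : ↥Q ⧸ P.subgroupOf Q, a * b = b * a := by
          intro a b
          obtain ⟨x, hx, rfl⟩ := hlift a
          obtain ⟨y, hy, rfl⟩ := hlift b
          rw [← map_mul, ← map_mul]
          congr 1
          exact Subtype.ext (hc _ hx _ hy)
        have hsq : ∀ a : ↥Q ⧸ P.subgroupOf Q, a * a = 1 := by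
          intro a
          obtain ⟨x, hx, rfl⟩ := hlift a
          rw [← map_mul]
          have : x * x = 1 := Subtype.ext (h2 _ hx)
          rw [this, map_one]
        obtain ⟨q, hq⟩ := exists_ne (1 : ↥Q ⧸ P.subgroupOf Q)
        obtain ⟨m, hm, rfl⟩ := hlift q
        have hZ : (Subgroup.zpowers (π m)).Normal := by
          constructor
          intro a ha g
          rw [hcomm g a, mul_assoc, mul_inv_cancel, mul_one]
          exact ha
        have htop : Subgroup.zpowers (π m) = ⊤ := by
          rcases hZ.eq_bot_or_eq_top with h | h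
          · exact absurd (Subgroup.zpowers_eq_bot.1 h) hq
          · exact h
        have hcases : ∀ a : ↥Q ⧸ P.subgroupOf Q, a = 1 ∨ a = π m := by
          intro a
          have : a ∈ Subgroup.zpowers (π m) := by rw [htop]; trivial
          obtain ⟨k, rfl⟩ := Subgroup.mem_zpowers_iff.1 this
          rcases Int.even_or_odd' k with ⟨l, rfl | rfl⟩
          · left
            rw [zpow_mul, zpow_ofNat, pow_two, hsq, one_zpow]
          · right
            rw [zpow_add, zpow_mul, zpow_ofNat, pow_two, hsq, one_zpow, one_mul, zpow_one]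
        refine (ih.union (ih.image (fun x => (m : G) * x))).subset ?_
        rintro x ⟨hxM, hxQ⟩
        rcases hcases (π ⟨x, hxQ⟩) with h | h
        · left
          exact ⟨hxM, (hker _).1 h⟩
        · right
          refine ⟨(m : G)⁻¹ * x, ⟨M.mul_mem (M.inv_mem hm) hxM, ?_⟩, by simp⟩
          have : π (m⁻¹ * ⟨x, hxQ⟩) = 1 := by rw [map_mul, map_inv, h, inv_mul_cancel]
          exact (hker _).1 this
  have := hind (Fin.last n)
  rwa [hn, inf_top_eq] at this

open Module

/-- index set -/
abbrev J : Type := ℕ × ℕ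
/-- all vectors indexed by `J` over the field with two elements -/
abbrev E : Type := J → ZMod 2

/-- The functional given by a finitely supported vector. -/
noncomputable def pr (φ : J →₀ ZMod 2) : Dual (ZMod 2) E :=
  Finsupp.linearCombination (ZMod 2) (fun j => (LinearMap.proj j : E →ₗ[ZMod 2] ZMod 2)) φ

theorem pr_apply (φ : J →₀ ZMod 2) (x : E) : pr φ x = φ.sum fun j a => a * x j := by
  simp [pr, Finsupp.linearCombination_apply, Finsupp.sum]

theorem pr_add (φ ψ : J →₀ ZMod 2) : pr (φ + ψ) = pr φ + pr ψ := by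
  simp [pr]

theorem pr_single (j : J) (x : E) : pr (Finsupp.single j 1) x = x j := by
  simp [pr]

theorem pr_eq_sum_of_subset (φ : J →₀ ZMod 2) (x : E) (S : Finset J) (h : φ.support ⊆ S) :
    pr φ x = ∑ j ∈ S, φ j * x j := by
  rw [pr_apply, Finsupp.sum_of_support_subset _ h _ (by simp)]

theorem pr_comm (φ v : J →₀ ZMod 2) : pr φ v = pr v φ := by
  rw [pr_eq_sum_of_subset φ v (φ.support ∪ v.support) Finset.subset_union_left,
    pr_eq_sum_of_subset v φ (φ.support ∪ v.support) Finset.subset_union_right]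
  exact Finset.sum_congr rfl fun j _ => mul_comm _ _

/-- The transvection `x ↦ x + ⟨φ, x⟩ v`. -/
noncomputable def tv (φ v : J →₀ ZMod 2) (h : pr φ v = 0) : E ≃ₗ[ZMod 2] E :=
  LinearEquiv.transvection (f := pr φ) (v := (v : E)) h

theorem tv_apply (φ v : J →₀ ZMod 2) (h : pr φ v = 0) (x : E) :
    tv φ v h x = x + pr φ x • (v : E) := rfl

/-- The group generated by all finitary transvections. -/
noncomputable def A : Subgroup (E ≃ₗ[ZMod 2] E) :=
  Subgroup.closure {e | ∃ (φ v : J →₀ ZMod 2) (h : pr φ v = 0), e = tv φ v h}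

theorem tv_mem (φ v : J →₀ ZMod 2) (h : pr φ v = 0) : tv φ v h ∈ A :=
  Subgroup.subset_closure ⟨φ, v, h, rfl⟩

/-- finitary -/
theorem finitary (g : E ≃ₗ[ZMod 2] E) (hg : g ∈ A) :
    ∃ S : Finset J, (∀ x : E, (∀ j ∈ S, x j = 0) → g x = x) ∧ (∀ x : E, ∀ j ∉ S, g x j = x j) := by
  induction hg using Subgroup.closure_induction with
  | mem e he =>
    obtain ⟨φ, v, h, rfl⟩ := he
    refine ⟨φ.support ∪ v.support, ?_, ?_⟩
    · intro x hx
      rw [tv_apply]
      have : pr φ x = 0 := by
        rw [pr_eq_sum_of_subset φ x _ Finset.Subset.rfl]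
        exact Finset.sum_eq_zero fun j hj => by rw [hx j (Finset.mem_union_left _ hj), mul_zero]
      rw [this, zero_smul, add_zero]
    · intro x j hj
      rw [tv_apply]
      have : v j = 0 := by
        by_contra hne
        exact hj (Finset.mem_union_right _ (Finsupp.mem_support_iff.2 hne))
      simp [this]
  | one => exact ⟨∅, fun x _ => rfl, fun x j _ => rfl⟩
  | mul a b _ _ ha hb =>
    obtain ⟨S, hS1, hS2⟩ := ha
    obtain ⟨T, hT1, hT2⟩ := hb
    refine ⟨S ∪ T, fun x hx => ?_, fun x j hj => ?_⟩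
    · rw [LinearEquiv.mul_apply, hT1 x fun j hj => hx j (Finset.mem_union_right _ hj),
        hS1 x fun j hj => hx j (Finset.mem_union_left _ hj)]
    · rw [Finset.notMem_union] at hj
      rw [LinearEquiv.mul_apply, hS2 _ j hj.1, hT2 _ j hj.2]
  | inv a _ ha =>
    obtain ⟨S, hS1, hS2⟩ := ha
    refine ⟨S, fun x hx => ?_, fun x j hj => ?_⟩
    · have := hS1 x hx
      have h2 : a⁻¹ (a x) = x := by
        change (a⁻¹ * a) x = x
        rw [inv_mul_cancel]; rfl
      rw [this] at h2
      exact h2
    · have := hS2 (a⁻¹ x) j hj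
      have h2 : a (a⁻¹ x) = x := by
        change (a * a⁻¹) x = x
        rw [mul_inv_cancel]; rfl
      rw [h2] at this
      exact this.symm

theorem exists_pair (w w' : J →₀ ZMod 2) (hw : w ≠ 0) (hw' : w' ≠ 0) :
    ∃ χ : J →₀ ZMod 2, pr χ w = 1 ∧ pr χ w' = 1 := by
  have h01 : ∀ a : ZMod 2, a ≠ 0 → a = 1 := by decide
  obtain ⟨j, hj⟩ := Finsupp.ne_iff.1 hw
  obtain ⟨j', hj'⟩ := Finsupp.ne_iff.1 hw'
  have hj := h01 _ hj
  have hj' := h01 _ hj'
  by_cases h1 : w' j = 1
  · exact ⟨Finsupp.single j 1, by rw [pr_single]; exact hj, by rw [pr_single]; exact h1⟩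
  by_cases h2 : w j' = 1
  · exact ⟨Finsupp.single j' 1, by rw [pr_single]; exact h2, by rw [pr_single]; exact hj'⟩
  have h1 : w' j = 0 := by by_contra h; exact h1 (h01 _ h)
  have h2 : w j' = 0 := by by_contra h; exact h2 (h01 _ h)
  refine ⟨Finsupp.single j 1 + Finsupp.single j' 1, ?_, ?_⟩
  · rw [pr_add, LinearMap.add_apply, pr_single, pr_single, h2, hj, add_zero]
  · rw [pr_add, LinearMap.add_apply, pr_single, pr_single, h1, hj', zero_add]

/-- conjugate of a transvection -/
theorem conj_tv (g : E ≃ₗ[ZMod 2] E) (φ v φ' v' : J →₀ ZMod 2) (h : pr φ v = 0) (h' : pr φ' v' = 0)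
    (hv : g v = v') (hφ : ∀ x, pr φ' (g x) = pr φ x) :
    g * tv φ v h * g⁻¹ = tv φ' v' h' := by
  have : g * tv φ v h = tv φ' v' h' * g := by
    ext1 x
    rw [LinearEquiv.mul_apply, LinearEquiv.mul_apply, tv_apply, tv_apply, map_add, map_smul, hv,
      hφ]
  rw [this, mul_assoc, mul_inv_cancel, mul_one]

/-- A transvection as an element of the group `A`. -/
noncomputable def T (φ v : J →₀ ZMod 2) (h : pr φ v = 0) : A := ⟨tv φ v h, tv_mem φ v h⟩

theorem two_eq (a : J →₀ ZMod 2) : a + a = 0 := by
  ext j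
  have : ∀ b : ZMod 2, b + b = 0 := by decide
  simpa using this (a j)

theorem coe_add' (a b : J →₀ ZMod 2) : ((a + b : J →₀ ZMod 2) : E) = (a : E) + (b : E) :=
  Finsupp.coe_add a b

section normal

variable (N : Subgroup A) (hN : N.Normal)
include hN

theorem change_vec (ψ w w' : J →₀ ZMod 2) (h : pr ψ w = 0) (h' : pr ψ w' = 0) (hw : w ≠ 0)
    (hw' : w' ≠ 0) (hmem : T ψ w h ∈ N) : T ψ w' h' ∈ N := by
  obtain ⟨χ, hχ, hχ'⟩ := exists_pair w w' hw hw'
  have hu : pr χ (w + w' : J →₀ ZMod 2) = 0 := by
    rw [coe_add', map_add, hχ, hχ']; decide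
  have hψu : pr ψ (w + w' : J →₀ ZMod 2) = 0 := by
    rw [coe_add', map_add, h, h', add_zero]
  have key : T χ (w + w') hu * T ψ w h * (T χ (w + w') hu)⁻¹ = T ψ w' h' := by
    apply Subtype.ext
    change tv χ (w + w') hu * tv ψ w h * (tv χ (w + w') hu)⁻¹ = tv ψ w' h'
    apply conj_tv
    · rw [tv_apply, hχ, one_smul, ← coe_add', ← add_assoc, two_eq, zero_add]
    · intro x
      rw [tv_apply, map_add, map_smul, hψu, smul_zero, add_zero]
  rw [← key]
  exact hN.conj_mem _ hmem _

theorem change_fun (ψ ψ' w : J →₀ ZMod 2) (h : pr ψ w = 0) (h' : pr ψ' w = 0) (hψ : ψ ≠ 0)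
    (hψ' : ψ' ≠ 0) (hmem : T ψ w h ∈ N) : T ψ' w h' ∈ N := by
  obtain ⟨u, hu, hu'⟩ := exists_pair ψ ψ' hψ hψ'
  rw [pr_comm] at hu hu'
  have hχu : pr (ψ + ψ') u = 0 := by
    rw [pr_add, LinearMap.add_apply, hu, hu']; decide
  have key : T (ψ + ψ') u hχu * T ψ w h * (T (ψ + ψ') u hχu)⁻¹ = T ψ' w h' := by
    apply Subtype.ext
    change tv (ψ + ψ') u hχu * tv ψ w h * (tv (ψ + ψ') u hχu)⁻¹ = tv ψ' w h'
    apply conj_tv
    · rw [tv_apply, pr_add, LinearMap.add_apply, h, h', add_zero, zero_smul, add_zero]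
    · intro x
      rw [tv_apply, map_add, map_smul, hu', pr_add, LinearMap.add_apply, smul_eq_mul, mul_one]
      have : ∀ a b : ZMod 2, a + (b + a) = b := by decide
      exact this _ _
  rw [← key]
  exact hN.conj_mem _ hmem _

theorem all_mem (ψ w : J →₀ ZMod 2) (h : pr ψ w = 0) (hψ : ψ ≠ 0) (hw : w ≠ 0)
    (hmem : T ψ w h ∈ N) (φ v : J →₀ ZMod 2) (h' : pr φ v = 0) : T φ v h' ∈ N := by
  by_cases hφ : φ = 0
  · have : T φ v h' = 1 := by
      apply Subtype.ext
      ext1 x
      change tv φ v h' x = x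
      rw [tv_apply, hφ]
      simp [pr]
    rw [this]; exact N.one_mem
  by_cases hv : v = 0
  · have : T φ v h' = 1 := by
      apply Subtype.ext
      ext1 x
      change tv φ v h' x = x
      rw [tv_apply, hv]
      simp
    rw [this]; exact N.one_mem
  obtain ⟨j, hj⟩ := Infinite.exists_notMem_finset (ψ.support ∪ φ.support)
  rw [Finset.notMem_union, Finsupp.notMem_support_iff, Finsupp.notMem_support_iff] at hj
  have hne : (Finsupp.single j 1 : J →₀ ZMod 2) ≠ 0 := by
    rw [Ne, Finsupp.single_eq_zero]; decide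
  have h1 : pr ψ (Finsupp.single j 1 : J →₀ ZMod 2) = 0 := by
    rw [pr_comm, pr_single]; exact hj.1
  have h2 : pr φ (Finsupp.single j 1 : J →₀ ZMod 2) = 0 := by
    rw [pr_comm, pr_single]; exact hj.2
  have m1 := change_vec N hN ψ w _ h h1 hw hne hmem
  have m2 := change_fun N hN ψ φ _ h1 h2 hψ hφ m1
  exact change_vec N hN φ _ v h2 h' hne hv m2

end normal

theorem exists_transvection (N : Subgroup A) (hN : N.Normal) (g : A) (hg : g ∈ N) (hg1 : g ≠ 1) :
    ∃ (ψ w : J →₀ ZMod 2) (h : pr ψ w = 0), ψ ≠ 0 ∧ w ≠ 0 ∧ T ψ w h ∈ N := by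
  obtain ⟨S, hS1, hS2⟩ := finitary g.1 g.2
  obtain ⟨x, hx⟩ : ∃ x : E, g.1 x ≠ x := by
    by_contra hcon
    push Not at hcon
    exact hg1 (Subtype.ext (LinearEquiv.ext hcon))
  classical
  -- truncate x to S
  let v : J →₀ ZMod 2 := Finsupp.onFinset S (fun j => if j ∈ S then x j else 0) (by
    intro j hj; by_contra h; simp [h] at hj)
  have hv : ∀ j, v j = if j ∈ S then x j else 0 := fun j => rfl
  have hgv : g.1 v ≠ v := by
    intro hgv
    apply hx
    have hx2 : g.1 (x - v) = x - v := by
      apply hS1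
      intro j hj
      rw [Pi.sub_apply, hv, if_pos hj, sub_self]
    have : x = (x - v) + v := by abel
    calc g.1 x = g.1 ((x - v) + v) := by rw [← this]
      _ = (x - v) + v := by rw [map_add, hx2, hgv]
      _ = x := this.symm
  let v' : J →₀ ZMod 2 := Finsupp.onFinset S (fun j => g.1 v j) (by
    intro j hj; by_contra h
    apply hj
    rw [hS2 _ j h, hv, if_neg h])
  have hv' : (g.1 v : E) = v' := rfl
  obtain ⟨j0, hj0⟩ := Infinite.exists_notMem_finset S
  have hp : pr (Finsupp.single j0 1) v = 0 := by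
    rw [pr_single, hv, if_neg hj0]
  have hp' : pr (Finsupp.single j0 1) v' = 0 := by
    rw [pr_single]
    change g.1 v j0 = 0
    rw [hS2 _ j0 hj0, hv, if_neg hj0]
  have hpw : pr (Finsupp.single j0 1) (v' + v : J →₀ ZMod 2) = 0 := by
    rw [coe_add', map_add, hp, hp', add_zero]
  refine ⟨Finsupp.single j0 1, v' + v, hpw, ?_, ?_, ?_⟩
  · rw [Ne, Finsupp.single_eq_zero]; decide
  · intro h0
    apply hgv
    have : v' = v := by
      have h1 : v' + v + v = v := by rw [h0, zero_add]
      rwa [add_assoc, two_eq, add_zero] at h1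
    rw [hv', this]
  · have key : T (Finsupp.single j0 1) (v' + v) hpw =
        g * (T (Finsupp.single j0 1) v hp * g⁻¹ * (T (Finsupp.single j0 1) v hp)⁻¹) := by
      have e1 : g * T (Finsupp.single j0 1) v hp * g⁻¹ = T (Finsupp.single j0 1) v' hp' := by
        apply Subtype.ext
        change g.1 * tv _ v hp * (g.1)⁻¹ = tv _ v' hp'
        apply conj_tv
        · exact hv'
        · intro y
          rw [pr_single, pr_single, hS2 y j0 hj0]
      have e2 : T (Finsupp.single j0 1) (v' + v) hpw * T (Finsupp.single j0 1) v hp =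
          T (Finsupp.single j0 1) v' hp' := by
        apply Subtype.ext
        ext1 y
        change tv _ (v' + v) hpw (tv _ v hp y) = tv _ v' hp' y
        rw [tv_apply, tv_apply, tv_apply, map_add, map_smul, hp, smul_zero, add_zero, add_assoc,
          ← smul_add, ← coe_add', ← add_assoc, add_comm v v', add_assoc, two_eq, add_zero]
      rw [← mul_assoc, ← mul_assoc, e1, ← e2, mul_assoc, mul_inv_cancel, mul_one]
    rw [key]
    exact N.mul_mem hg (hN.conj_mem _ (N.inv_mem hg) _)

instance : Nontrivial A := by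
  have hp : pr (Finsupp.single (0, 0) 1) (Finsupp.single (0, 1) 1 : J →₀ ZMod 2) = 0 := by
    rw [pr_single]; simp
  refine ⟨T (Finsupp.single (0, 0) 1) (Finsupp.single (0, 1) 1) hp, 1, ?_⟩
  intro h
  have h1 : tv (Finsupp.single (0, 0) 1) (Finsupp.single (0, 1) 1) hp = 1 :=
    congrArg Subtype.val h
  have h2 := congrFun (congrArg (fun e : E ≃ₗ[ZMod 2] E => e (Pi.single (0, 0) 1)) h1) (0, 1)
  change tv (Finsupp.single (0, 0) 1) (Finsupp.single (0, 1) 1) hp (Pi.single (0, 0) 1) (0, 1) =
    (Pi.single (0, 0) 1 : E) (0, 1) at h2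
  rw [tv_apply, pr_single] at h2
  simp at h2

instance simpleA : IsSimpleGroup A where
  eq_bot_or_eq_top_of_normal := by
    intro N hN
    by_cases hb : N = ⊥
    · exact Or.inl hb
    right
    rw [Subgroup.eq_bot_iff_forall] at hb
    push Not at hb
    obtain ⟨g, hg, hg1⟩ := hb
    obtain ⟨ψ, w, h, hψ, hw, hmem⟩ := exists_transvection N hN g hg hg1
    rw [eq_top_iff]
    rintro ⟨a, ha⟩ -
    induction ha using Subgroup.closure_induction with
    | mem e he =>
      obtain ⟨φ, v, h', rfl⟩ := he
      exact all_mem N hN ψ w h hψ hw hmem φ v h'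
    | one => exact N.one_mem
    | mul a b ha hb iha ihb => exact N.mul_mem iha ihb
    | inv a ha iha => exact N.inv_mem iha


/-- finitely supported matrices: sequences of vectors, almost all zero, with a common finite
support -/
def M : AddSubgroup (ℕ → E) where
  carrier := {m | ∃ (K : ℕ) (S : Finset J), (∀ k, K ≤ k → m k = 0) ∧ ∀ k, ∀ j ∉ S, m k j = 0}
  zero_mem' := ⟨0, ∅, fun _ _ => rfl, fun _ _ _ => rfl⟩
  add_mem' := by
    rintro a b ⟨K, S, h1, h2⟩ ⟨L, T, h3, h4⟩
    classical
    refine ⟨max K L, S ∪ T, fun k hk => ?_, fun k j hj => ?_⟩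
    · rw [Pi.add_apply, h1 k ((le_max_left _ _).trans hk), h3 k ((le_max_right _ _).trans hk),
        add_zero]
    · rw [Finset.notMem_union] at hj
      rw [Pi.add_apply, Pi.add_apply, h2 k j hj.1, h4 k j hj.2, add_zero]
  neg_mem' := by
    rintro a ⟨K, S, h1, h2⟩
    refine ⟨K, S, fun k hk => ?_, fun k j hj => ?_⟩
    · rw [Pi.neg_apply, h1 k hk, neg_zero]
    · rw [Pi.neg_apply, Pi.neg_apply, h2 k j hj, neg_zero]

noncomputable instance : DistribMulAction A M where
  smul g m := ⟨fun k => g.1 (m.1 k), by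
    obtain ⟨K, S, h1, h2⟩ := m.2
    obtain ⟨T, hT1, hT2⟩ := finitary g.1 g.2
    classical
    refine ⟨K, S ∪ T, fun k hk => ?_, fun k j hj => ?_⟩
    · change g.1 (m.1 k) = 0
      rw [h1 k hk, map_zero]
    · rw [Finset.notMem_union] at hj
      change g.1 (m.1 k) j = 0
      rw [hT2 _ j hj.2, h2 k j hj.1]⟩
  one_smul m := rfl
  mul_smul g h m := rfl
  smul_zero g := Subtype.ext (funext fun k => map_zero g.1)
  smul_add g m n := Subtype.ext (funext fun k => map_add g.1 _ _)

theorem smul_coe (g : A) (m : M) (k : ℕ) : (g • m).1 k = g.1 (m.1 k) := rfl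

/-- The base matrix, with rows of finite support. -/
def X (k : ℕ) : E := fun p => if k = p.1 then 1 else 0

/-- The derivation `g ↦ g X - X`. -/
noncomputable def delta (g : A) : M := ⟨fun k => g.1 (X k) - X k, by
  obtain ⟨T, hT1, hT2⟩ := finitary g.1 g.2
  refine ⟨T.sup (fun p => p.1) + 1, T, fun k hk => ?_, fun k j hj => ?_⟩
  · change g.1 (X k) - X k = 0
    rw [hT1, sub_self]
    intro j hj
    have : j.1 ≤ T.sup (fun p => p.1) := Finset.le_sup (f := fun p : J => p.1) hj
    have hne : k ≠ j.1 := by omega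
    simp [X, hne]
  · change g.1 (X k) j - X k j = 0
    rw [hT2 _ j hj, sub_self]⟩

theorem delta_mul (g h : A) : delta (g * h) = delta g + g • delta h := by
  apply Subtype.ext
  funext k
  change (g.1 (h.1 (X k))) - X k = (g.1 (X k) - X k) + g.1 (h.1 (X k) - X k)
  rw [map_sub]; abel

theorem delta_surjective : Function.Surjective delta := by
  intro m
  obtain ⟨K, S, h1, h2⟩ := m.2
  -- the rows as finitely supported vectors
  let r : ℕ → (J →₀ ZMod 2) := fun k => Finsupp.onFinset S (m.1 k) (by
    intro j hj; by_contra h; exact hj (h2 k j h))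
  have hr : ∀ k, (r k : E) = m.1 k := fun k => rfl
  -- a column index beyond the support
  let n : ℕ := S.sup (fun p => p.2) + 1
  have hn : ∀ k, (k, n) ∉ S := by
    intro k hk
    have : n ≤ S.sup (fun p => p.2) := Finset.le_sup (f := fun p : J => p.2) hk
    omega
  have hrn : ∀ k k', r k (k', n) = 0 := fun k k' => h2 k _ (hn k')
  have key : ∀ L : ℕ, ∃ g : A, ∀ x : E, g.1 x = x + ∑ k ∈ Finset.range L, x (k, n) • (r k : E) := by
    intro L
    induction L with
    | zero => exact ⟨1, fun x => by simp⟩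
    | succ L ih =>
      obtain ⟨g, hg⟩ := ih
      have hp : pr (Finsupp.single (L, n) 1) (r L) = 0 := by rw [pr_single]; exact hrn L L
      refine ⟨g * T (Finsupp.single (L, n) 1) (r L) hp, fun x => ?_⟩
      change g.1 (tv _ (r L) hp x) = _
      rw [hg, tv_apply, pr_single, Finset.sum_range_succ]
      have : ∀ k, (x + x (L, n) • (r L : E)) (k, n) = x (k, n) := by
        intro k
        rw [Pi.add_apply, Pi.smul_apply, hrn, smul_zero, add_zero]
      simp only [this]
      abel
  obtain ⟨g, hg⟩ := key K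
  refine ⟨g, Subtype.ext (funext fun k => ?_)⟩
  change g.1 (X k) - X k = m.1 k
  rw [hg, add_sub_cancel_left]
  have hX : ∀ i, X k (i, n) = if k = i then 1 else 0 := fun i => rfl
  simp only [hX, ite_smul, one_smul, zero_smul, Finset.sum_ite_eq, Finset.mem_range]
  split_ifs with h
  · exact hr k
  · rw [h1 k (by omega)]

/-- The semidirect product action. -/
noncomputable def phi : A →* MulAut (Multiplicative M) where
  toFun a := AddEquiv.toMultiplicative (DistribMulAction.toAddEquiv M a)
  map_one' := by ext x; rfl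
  map_mul' a b := by ext x; rfl

theorem phi_apply (a : A) (m : M) : phi a (Multiplicative.ofAdd m) = Multiplicative.ofAdd (a • m) := rfl

/-- The group. -/
abbrev G : Type := Multiplicative M ⋊[phi] A

/-- the standard complement -/
noncomputable def B₀ : Subgroup G := (SemidirectProduct.inr : A →* G).range

/-- the second complement -/
noncomputable def homδ : A →* G where
  toFun a := ⟨Multiplicative.ofAdd (delta a), a⟩
  map_one' := by
    have : delta 1 = 0 := by
      have := delta_mul 1 1
      rw [one_smul, mul_one] at this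
      simpa using this
    ext
    · rw [this]; rfl
    · rfl
  map_mul' a b := by
    ext
    · rw [delta_mul]; rfl
    · rfl

noncomputable def A₀ : Subgroup G := homδ.range

theorem homδ_injective : Function.Injective homδ := by
  intro a b h
  exact congrArg SemidirectProduct.right h

instance : IsSimpleGroup A₀ := (MonoidHom.ofInjective homδ_injective).symm.isSimpleGroup
instance : IsSimpleGroup B₀ :=
  (MonoidHom.ofInjective (SemidirectProduct.inr_injective (φ := phi))).symm.isSimpleGroup

theorem factorized (g : G) : ∃ a ∈ A₀, ∃ b ∈ B₀, g = a * b := by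
  obtain ⟨a, ha⟩ := delta_surjective (Multiplicative.toAdd g.left)
  refine ⟨homδ a, ⟨a, rfl⟩, SemidirectProduct.inr (a⁻¹ * g.right), ⟨_, rfl⟩, ?_⟩
  apply SemidirectProduct.ext
  · change g.left = Multiplicative.ofAdd (delta a) * phi a 1
    rw [ha, map_one, mul_one]; rfl
  · change g.right = a * (a⁻¹ * g.right)
    rw [mul_inv_cancel_left]

/-- chain of normal subgroups -/
def D (i : ℕ) : Subgroup G where
  carrier := {g | g.right = 1 ∧ ∀ k, k < i → (Multiplicative.toAdd g.left).1 k = 0}
  one_mem' := ⟨rfl, fun k _ => rfl⟩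
  mul_mem' := by
    rintro a b ⟨ha, ha'⟩ ⟨hb, hb'⟩
    refine ⟨by rw [SemidirectProduct.mul_right, ha, hb, one_mul], fun k hk => ?_⟩
    rw [SemidirectProduct.mul_left, ha, map_one]
    change (Multiplicative.toAdd a.left).1 k + (Multiplicative.toAdd b.left).1 k = 0
    rw [ha' k hk, hb' k hk, add_zero]
  inv_mem' := by
    rintro a ⟨ha, ha'⟩
    refine ⟨by rw [SemidirectProduct.inv_right, ha, inv_one], fun k hk => ?_⟩
    rw [SemidirectProduct.inv_left, ha, inv_one, map_one]
    change - (Multiplicative.toAdd a.left).1 k = 0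
    rw [ha' k hk, neg_zero]

theorem D_normal (i : ℕ) : (D i).Normal := by
  constructor
  rintro n ⟨hn, hn'⟩ g
  refine ⟨by simp [hn], fun k hk => ?_⟩
  have e : (g * n * g⁻¹).left = g.left * phi g.right n.left * (g.left)⁻¹ := by
    simp [hn, mul_assoc]
  rw [e]
  change (Multiplicative.toAdd g.left).1 k + g.right.1 ((Multiplicative.toAdd n.left).1 k) +
    (- (Multiplicative.toAdd g.left).1 k) = 0
  rw [hn' k hk, map_zero]; abel

theorem D_strictAnti : StrictAnti D := by
  refine strictAnti_nat_of_succ_lt fun i => ?_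
  refine lt_of_le_of_ne (fun g hg => ⟨hg.1, fun k hk => hg.2 k (by omega)⟩) ?_
  intro h
  let m : M := ⟨fun k => if k = i then Pi.single (0, 0) 1 else 0, by
    refine ⟨i + 1, {(0, 0)}, fun k hk => if_neg (by omega), fun k j hj => ?_⟩
    rw [Finset.mem_singleton] at hj
    by_cases hki : k = i
    · simp [hki, hj]
    · simp [hki]⟩
  have h1 : (⟨Multiplicative.ofAdd m, 1⟩ : G) ∈ D i := by
    refine ⟨rfl, fun k hk => ?_⟩
    change (if k = i then Pi.single (0, 0) 1 else 0 : E) = 0
    rw [if_neg (by omega)]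
  rw [← h] at h1
  have h2 := h1.2 i (Nat.lt_succ_self i)
  change (if i = i then Pi.single (0, 0) 1 else 0 : E) = 0 at h2
  rw [if_pos rfl] at h2
  have := congrFun h2 (0, 0)
  simp at this

theorem D_zero_infinite : (D 0 : Set G).Infinite := by
  intro hfin
  have h1 : {t : Set G | t ⊆ (D 0 : Set G)}.Finite := hfin.finite_subsets
  refine Set.infinite_of_injective_forall_mem (f := fun i : ℕ => (D i : Set G)) ?_ ?_ h1
  · intro i j hij
    exact D_strictAnti.injective (SetLike.coe_injective hij)
  · intro i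
    exact D_strictAnti.antitone (Nat.zero_le i)

theorem D_zero_comm (x : G) (hx : x ∈ D 0) (y : G) (hy : y ∈ D 0) : x * y = y * x := by
  apply SemidirectProduct.ext
  · rw [SemidirectProduct.mul_left, SemidirectProduct.mul_left, hx.1, hy.1, map_one]
    exact mul_comm x.left y.left
  · rw [SemidirectProduct.mul_right, SemidirectProduct.mul_right, hx.1, hy.1]

theorem D_zero_sq (x : G) (hx : x ∈ D 0) : x * x = 1 := by
  apply SemidirectProduct.ext
  · rw [SemidirectProduct.mul_left, hx.1, map_one]
    change Multiplicative.ofAdd (Multiplicative.toAdd x.left + Multiplicative.toAdd x.left) =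
      Multiplicative.ofAdd 0
    congr 1
    apply Subtype.ext
    funext k
    funext j
    have : ∀ b : ZMod 2, b + b = 0 := by decide
    exact this _
  · rw [SemidirectProduct.mul_right, hx.1, one_mul]; rfl

/-- There is a group `G = AB` such that `A` and `B` have a composition series but `G` has none. -/
theorem result : ∃ (G : Type) (_ : Group G) (A B : Subgroup G),
    (∀ g : G, ∃ a ∈ A, ∃ b ∈ B, g = a * b) ∧
      HasCompositionSeries A ∧ HasCompositionSeries B ∧ ¬ HasCompositionSeries G :=
  ⟨G, inferInstance, A₀, B₀, factorized, hasCompositionSeries_of_simple,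
    hasCompositionSeries_of_simple,
    fun h => D_zero_infinite
      (finite_of_hasCompositionSeries h (D 0) (D_normal 0) D_zero_comm D_zero_sq)⟩

end Pool.Agent.Results.MP_bc5942_al.CompSeries
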